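import Pool.Agent.Q131.PO4.Defs

/-!
# Job PO6: red selection
-/

set_option autoImplicit false

namespace Pool.Agent.Q261.PO4

open Pool.Agent.Q131.PO4

lemma exists_other {V : Type} [Fintype V] {R : SimpleGraph V} (hR : ∀ v, dg R v = 0 ∨ dg R v = 2)
    {a q : V} (h : R.Adj a q) : ∃ w, w ≠ q ∧ R.Adj a w := by
  classical
  have h1 : q ∈ Finset.univ.filter (fun w => R.Adj a w) := by
    rw [Finset.mem_filter]
    exact ⟨Finset.mem_univ _, h⟩
  have h2 : dg R a = 2 := by
    rcases hR a with h3 | h3
    · exfalso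
      unfold dg at h3
      rw [Finset.card_eq_zero] at h3
      have h4 : q ∈ (∅ : Finset V) := by
        rw [← h3]
        convert h1
      exact absurd h4 (Finset.notMem_empty _)
    · exact h3
  have h5 : 1 < (Finset.univ.filter (fun w => R.Adj a w)).card := by
    have : (Finset.univ.filter (fun w => R.Adj a w)).card = 2 := by
      unfold dg at h2
      convert h2
    omega
  obtain ⟨w, hw, hne⟩ := Finset.exists_mem_ne h5 q
  exact ⟨w, hne, (Finset.mem_filter.1 hw).2⟩

theorem selRed : S_selRed := by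
  classical
  intro V _ R hR c c' q hcc hqc hqc'
  have key : ∀ C : R.ConnectedComponent, ∃ e : V × V,
      (C = R.connectedComponentMk c → e = (c, c')) ∧
      ((∃ x y, R.Adj x y ∧ R.connectedComponentMk x = C) →
        R.Adj e.1 e.2 ∧ R.connectedComponentMk e.1 = C ∧ q ≠ e.1 ∧ q ≠ e.2) := by
    intro C
    by_cases hC : C = R.connectedComponentMk c
    · exact ⟨(c, c'), fun _ => rfl, fun _ => ⟨hcc, hC.symm, hqc, hqc'⟩⟩
    · by_cases hE : ∃ x y, R.Adj x y ∧ R.connectedComponentMk x = C
      · obtain ⟨x, y, hxy, hx⟩ := hE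
        have hyC : R.connectedComponentMk y = C := by
          rw [← hx]
          exact (SimpleGraph.ConnectedComponent.connectedComponentMk_eq_of_adj hxy).symm
        by_cases h1 : q = x
        · obtain ⟨w, hw1, hw2⟩ := exists_other hR (a := y) (q := q) (h1 ▸ hxy.symm)
          refine ⟨(y, w), fun h => absurd h hC, fun _ => ⟨hw2, hyC, ?_, fun h => hw1 h.symm⟩⟩
          intro h
          have h2 : q = y := h
          exact hxy.ne (h1.symm.trans h2)
        · by_cases h2 : q = y
          · obtain ⟨w, hw1, hw2⟩ := exists_other hR (a := x) (q := q) (h2 ▸ hxy)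
            exact ⟨(x, w), fun h => absurd h hC, fun _ => ⟨hw2, hx, h1, fun h => hw1 h.symm⟩⟩
          · exact ⟨(x, y), fun h => absurd h hC, fun _ => ⟨hxy, hx, h1, h2⟩⟩
      · exact ⟨(c, c'), fun _ => rfl, fun h => absurd h hE⟩
  choose e he1 he2 using key
  have hmk : ∀ {x y : V}, R.Adj x y → R.connectedComponentMk x = R.connectedComponentMk y :=
    fun h => SimpleGraph.ConnectedComponent.connectedComponentMk_eq_of_adj h
  let S : SimpleGraph V :=
    { Adj := fun x y => R.Adj x y ∧ (e (R.connectedComponentMk x) = (x, y) ∨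
        e (R.connectedComponentMk x) = (y, x))
      symm := ⟨fun x y h => by
        obtain ⟨h1, h2⟩ := h
        refine ⟨h1.symm, ?_⟩
        rw [← hmk h1]
        exact h2.symm⟩
      loopless := ⟨fun x h => h.1.ne rfl⟩ }
  have hS : ∀ x y, S.Adj x y ↔ (R.Adj x y ∧ (e (R.connectedComponentMk x) = (x, y) ∨
        e (R.connectedComponentMk x) = (y, x))) := by
    intro x y
    rfl
  clear_value S
  refine ⟨S, ⟨?_, ?_, ?_⟩, ?_, ?_⟩
  · intro x y h
    exact ((hS x y).1 h).1
  · intro x y hxy
    obtain ⟨g1, g2, -, -⟩ := he2 (R.connectedComponentMk x) ⟨x, y, hxy, rfl⟩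
    refine ⟨(e (R.connectedComponentMk x)).1, (e (R.connectedComponentMk x)).2, ?_, ?_⟩
    · rw [hS]
      refine ⟨g1, Or.inl ?_⟩
      rw [g2]
    · exact (SimpleGraph.ConnectedComponent.exact g2).symm
  · intro x y u v h1 h2 h3
    rw [hS] at h1 h2
    have h4 : R.connectedComponentMk x = R.connectedComponentMk u :=
      SimpleGraph.ConnectedComponent.sound h3
    rw [← h4] at h2
    obtain ⟨-, h1⟩ := h1
    obtain ⟨-, h2⟩ := h2
    rcases h1 with h1 | h1 <;> rcases h2 with h2 | h2
    · left
      have := h1.symm.trans h2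
      rw [Prod.ext_iff] at this
      exact ⟨this.1, this.2⟩
    · right
      have := h1.symm.trans h2
      rw [Prod.ext_iff] at this
      exact ⟨this.1, this.2⟩
    · right
      have := h1.symm.trans h2
      rw [Prod.ext_iff] at this
      exact ⟨this.2, this.1⟩
    · left
      have := h1.symm.trans h2
      rw [Prod.ext_iff] at this
      exact ⟨this.2, this.1⟩
  · rw [hS]
    exact ⟨hcc, Or.inl (he1 _ rfl)⟩
  · unfold dg
    rw [Finset.card_eq_zero, Finset.filter_eq_empty_iff]
    intro w _ hw
    rw [hS] at hw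
    obtain ⟨g1, g2⟩ := hw
    obtain ⟨-, -, k1, k2⟩ := he2 (R.connectedComponentMk q) ⟨q, w, g1, rfl⟩
    rcases g2 with g2 | g2
    · rw [g2] at k1
      exact k1 rfl
    · rw [g2] at k2
      exact k2 rfl

end Pool.Agent.Q261.PO4
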